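import Pool.Agent.Q118.TypedThree
set_option autoImplicit false
open Finset
open scoped Classical

/-!
For all `k ≥ l ≥ 2` there is a graph `G` with `G ↛ (K_k, K_k, K_l)` and
`G → (K_{k+1}, K_{k-1}, K_l)`.
-/

namespace Pool.Agent.Results.MP_5efe44_co.ThreeCliques

open Pool.Agent.Q118.Partite Pool.Agent.Q118.TypedRamsey Pool.Agent.Q118.TypedThree

/-- For all `k ≥ l ≥ 2` there is a finite graph `G` with `G ↛ (K_k, K_k, K_l)` and
`G → (K_{k+1}, K_{k-1}, K_l)`. -/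
theorem result : ∀ k l : ℕ, 2 ≤ l → l ≤ k →
    ∃ (V : Type) (_ : Finite V) (G : SimpleGraph V),
      ¬ Arrow G (![k, k, l] : Fin 3 → ℕ) ∧ Arrow G (![k + 1, k - 1, l] : Fin 3 → ℕ) := by
  intro k l hl hlk
  rcases Nat.lt_or_ge k 3 with hk | hk
  · -- `k = l = 2`
    obtain rfl : k = 2 := by omega
    obtain rfl : l = 2 := by omega
    refine ⟨Fin 1, inferInstance, ⊥, ?_, ?_⟩
    · intro h
      obtain ⟨i, S, hS, -⟩ := h fun _ => 0
      have h1 : S.card ≤ 1 := card_finset_fin_le S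
      have h2 : S.card = 2 := by
        rw [hS]
        fin_cases i <;> rfl
      omega
    · intro c
      refine ⟨1, {0}, rfl, ?_⟩
      intro u _ v _ huv
      exact absurd (Subsingleton.elim u v) huv
  rcases eq_or_lt_of_le hlk with rfl | hlt
  · -- `l = k`
    obtain ⟨b, a, N, h⟩ := stage_eq hk
    obtain ⟨V, hV, G, ⟨c, hc⟩, hG⟩ := assemble (tau3 (Β := Fin b) (Α := Fin a) (X := Fin N)) hk
      (by norm_num) (![l + 1, l - 1, l] : Fin 3 → ℕ) h
    refine ⟨V, hV, G, ?_, hG⟩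
    intro harr
    obtain ⟨i, S, hS, hSm⟩ := harr c
    refine hc i ⟨S, ?_, hSm⟩
    rw [hS]
    fin_cases i <;> rfl
  · -- `l < k`
    obtain ⟨M, N, h⟩ := stage_lt hk hlt
    obtain ⟨V, hV, G, ⟨c, hc⟩, hG⟩ := assemble (tau2 (Λ := Fin M) (X := Fin N)) hk
      (by norm_num) (![k + 1, k - 1, l] : Fin 3 → ℕ) h
    refine ⟨V, hV, G, ?_, hG⟩
    intro harr
    obtain ⟨i, S, hS, hSm⟩ := harr fun e => (c e).castSucc
    have h01 : ∀ (i : Fin 2), S.card = k → ¬ ∀ u ∈ S, ∀ v ∈ S, u ≠ v →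
        G.Adj u v ∧ (c s(u, v)).castSucc = i.castSucc := by
      intro i hSk hm
      exact hc i ⟨S, hSk, fun u hu v hv huv => ⟨(hm u hu v hv huv).1,
        Fin.castSucc_injective _ (hm u hu v hv huv).2⟩⟩
    fin_cases i
    · exact h01 0 hS hSm
    · exact h01 1 hS hSm
    · have h1 : S.card = l := hS
      obtain ⟨x, hx, y, hy, hxy⟩ := one_lt_card.1 (show 1 < S.card by omega)
      have h2 := (hSm x hx y hy hxy).2
      have h3 : ∀ z : Fin 2, z.castSucc ≠ (2 : Fin 3) := by decide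
      exact h3 _ h2

end Pool.Agent.Results.MP_5efe44_co.ThreeCliques
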